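import Pool.Agent.Helper43.LT.TypeA
import Pool.Agent.Helper90.LT.Num
import Pool.Agent.Helper90.LT.DimA

/-!
Project LT (MP_b8862a_ag), block A: type `A`.
-/

set_option linter.unusedSectionVars false
set_option linter.unusedVariables false

open Module PF TF PW AG

namespace LT

variable {E : Type*} [NormedAddCommGroup E] [InnerProductSpace ℝ E] {Φ X : Finset E} {n s m : ℕ} {l y v : E}

/-- **BLOCK A** -/
theorem typeA {u : Fin m → E} (h : Dt Φ X n s l y v) (F : FrA Φ m u) (hm : 3 ≤ m) :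
    TypeB Φ X ∨ TypeD Φ X ∨ Exc s (n - 2 * s) := by
  rcases typeA_alt43 h F hm with h1 | ⟨k, k', h2, h3, h4⟩ | ⟨i, hi, him, hs, x, hx, hn⟩ |
    ⟨k, hk, he, rfl, hs, x, hx, hn⟩
  · exact Or.inr (Or.inl h1)
  · right; right; right; right; left
    refine ⟨k, k', h2, h3, ?_⟩
    have := h.h_pos
    have h5 : n + 1 = k ^ 2 + k' ^ 2 + 2 * (k * k') := by rw [h4]; ring
    omega
  · exact Or.inr (Or.inr (q_a hi him (dimA (by omega) him x hx hn) hs))
  · exact Or.inr (Or.inr (q_m hk he (dimM (by omega) x hx hn) hs))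

end LT
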