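import Pool.Agent.Helper81.LT.Defs
import Pool.Agent.Helper43.PX.Dim
import Pool.Agent.Helper27.TF.A

/-!
Project LT (MP_b8862a_ag), block A: type `A`, the three levels `-1`, `0`, `1`, all ranks.
-/

set_option linter.unusedSectionVars false
set_option linter.unusedVariables false

open Module PF TF PW AG

namespace LT

/-! Combinatorics of two decreasing antisymmetric sequences. -/

/-- lower sets of `Fin m` -/
theorem lower_card43 {m : ℕ} (S : Finset (Fin m)) (hS : ∀ i j : Fin m, i ≤ j → j ∈ S → i ∈ S) (j : Fin m) :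
    j ∈ S ↔ (j : ℕ) < S.card := by
  constructor
  · intro hj
    have h1 : Finset.Iic j ⊆ S := fun i hi => hS i j (Finset.mem_Iic.1 hi) hj
    have h2 := Finset.card_le_card h1
    rw [Fin.card_Iic] at h2
    omega
  · intro hj
    by_contra hcon
    have h1 : S ⊆ Finset.Iio j := by
      intro i hi
      rw [Finset.mem_Iio]
      by_contra hlt
      push Not at hlt
      exact hcon (hS j i hlt hi)
    have h2 := Finset.card_le_card h1
    rw [Fin.card_Iio] at h2
    omega

section comb

variable {m : ℕ} {L D : Fin m → ℤ}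

theorem nonneg_of_le43 (ha : ∀ i j, i ≤ j → L j ≤ L i) (hr : ∀ i, L (Fin.rev i) = -L i) {i : Fin m}
    (hi : (i : ℕ) + i + 1 ≤ m) : 0 ≤ L i := by
  have h1 : i ≤ Fin.rev i := by
    rw [Fin.le_def, Fin.val_rev]
    omega
  have h2 := ha _ _ h1
  rw [hr] at h2
  omega

theorem nonpos_of_ge43 (ha : ∀ i j, i ≤ j → L j ≤ L i) (hr : ∀ i, L (Fin.rev i) = -L i) {i : Fin m}
    (hi : m ≤ (i : ℕ) + i + 1) : L i ≤ 0 := by
  have h1 : Fin.rev i ≤ i := by
    rw [Fin.le_def, Fin.val_rev]
    omega
  have h2 := ha _ _ h1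
  rw [hr] at h2
  omega

theorem prod_nonneg43 (ha : ∀ i j, i ≤ j → L j ≤ L i) (hr : ∀ i, L (Fin.rev i) = -L i)
    (hDa : ∀ i j, i ≤ j → D j ≤ D i) (hDr : ∀ i, D (Fin.rev i) = -D i) (i : Fin m) : 0 ≤ L i * D i := by
  rcases le_total ((i : ℕ) + i + 1) m with h | h
  · exact mul_nonneg (nonneg_of_le43 ha hr h) (nonneg_of_le43 hDa hDr h)
  · exact mul_nonneg_of_nonpos_of_nonpos (nonpos_of_ge43 ha hr h) (nonpos_of_ge43 hDa hDr h)

theorem abs_le43 (ha : ∀ i j, i ≤ j → L j ≤ L i) (hr : ∀ i, L (Fin.rev i) = -L i) {i j : Fin m}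
    (h1 : i ≤ j) (h2 : j ≤ Fin.rev i) : |L j| ≤ L i := by
  rw [abs_le]
  have h3 := ha _ _ h1
  have h4 := ha _ _ h2
  rw [hr] at h4
  exact ⟨h4, h3⟩

/-- The integral case. -/
theorem core_int43 (hm : 3 ≤ m) (ha : ∀ i j, i ≤ j → L j ≤ L i) (hr : ∀ i, L (Fin.rev i) = -L i)
    (hDa : ∀ i j, i ≤ j → D j ≤ D i) (hDr : ∀ i, D (Fin.rev i) = -D i) (hs : ∑ i, L i * D i = 2)
    {i0 : Fin m} (h0 : (i0 : ℕ) = 0) :
    L i0 = 1 ∧ D i0 = 1 ∧ ∀ j, j ≠ i0 → j ≠ Fin.rev i0 → L j * D j = 0 := by
  classical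
  have hnn := prod_nonneg43 ha hr hDa hDr
  have hle0 : ∀ j : Fin m, i0 ≤ j := fun j => by rw [Fin.le_def]; omega
  have hle1 : ∀ j : Fin m, j ≤ Fin.rev i0 := fun j => by rw [Fin.le_def, Fin.val_rev]; omega
  have hne : i0 ≠ Fin.rev i0 := by
    intro h
    have := congrArg Fin.val h
    rw [Fin.val_rev] at this
    omega
  obtain ⟨i, hi⟩ : ∃ i, L i * D i ≠ 0 := by
    by_contra hcon
    push Not at hcon
    rw [Finset.sum_eq_zero fun i _ => hcon i] at hs
    omega
  have hL : 1 ≤ L i0 := by
    have h1 := abs_le43 ha hr (hle0 i) (hle1 i)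
    have h2 := Int.one_le_abs (left_ne_zero_of_mul hi)
    omega
  have hD : 1 ≤ D i0 := by
    have h1 := abs_le43 hDa hDr (hle0 i) (hle1 i)
    have h2 := Int.one_le_abs (right_ne_zero_of_mul hi)
    omega
  have hlast : L (Fin.rev i0) * D (Fin.rev i0) = L i0 * D i0 := by rw [hr, hDr]; ring
  have hsub : ∀ S : Finset (Fin m), ∑ i ∈ S, L i * D i ≤ 2 := by
    intro S
    rw [← hs]
    exact Finset.sum_le_sum_of_subset_of_nonneg (Finset.subset_univ S) fun i _ _ => hnn i
  have h2 := hsub {i0, Fin.rev i0}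
  rw [Finset.sum_pair hne, hlast] at h2
  have h3 : L i0 * D i0 = 1 := by nlinarith
  have h4 : L i0 = 1 := by nlinarith
  have h5 : D i0 = 1 := by
    rw [h4] at h3
    omega
  refine ⟨h4, h5, ?_⟩
  intro j hj hj'
  have h6 := hsub {j, i0, Fin.rev i0}
  rw [Finset.sum_insert (by simp [hj, hj']), Finset.sum_pair hne, hlast, h3] at h6
  have := hnn j
  omega

/-- The half odd case; `L` is twice the weight. -/
theorem core_odd43 (hm : 4 ≤ m) (ho : ∀ i, Odd (L i)) (ha : ∀ i j, i ≤ j → L j ≤ L i) (hr : ∀ i, L (Fin.rev i) = -L i)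
    (hDa : ∀ i j, i ≤ j → D j ≤ D i) (hDr : ∀ i, D (Fin.rev i) = -D i) (hs : ∑ i, L i * D i = 4)
    {i0 i1 : Fin m} (h0 : (i0 : ℕ) = 0) (h1 : (i1 : ℕ) = 1) :
    L i0 = 1 ∧ ((D i0 = 2 ∧ D i1 = 0) ∨
      (D i0 = 1 ∧ D i1 = 1 ∧ ∀ j, j ≠ i0 → j ≠ Fin.rev i0 → j ≠ i1 → j ≠ Fin.rev i1 → D j = 0)) := by
  classical
  have hnn := prod_nonneg43 ha hr hDa hDr
  have hL0 : ∀ i, L i ≠ 0 := by
    intro i h
    have := ho i
    rw [h] at this
    exact absurd this (by decide)
  have hle0 : ∀ j : Fin m, i0 ≤ j := fun j => by rw [Fin.le_def]; omega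
  have hle1 : ∀ j : Fin m, j ≤ Fin.rev i0 := fun j => by rw [Fin.le_def, Fin.val_rev]; omega
  have hne : i0 ≠ Fin.rev i0 := by
    intro h
    have := congrArg Fin.val h
    rw [Fin.val_rev] at this
    omega
  have hne1 : i1 ≠ Fin.rev i1 := by
    intro h
    have := congrArg Fin.val h
    rw [Fin.val_rev] at this
    omega
  have hne2 : i0 ≠ i1 := by
    intro h
    have := congrArg Fin.val h
    omega
  have hne3 : i0 ≠ Fin.rev i1 := by
    intro h
    have := congrArg Fin.val h
    rw [Fin.val_rev] at this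
    omega
  have hne4 : Fin.rev i0 ≠ i1 := by
    intro h
    have := congrArg Fin.val h
    rw [Fin.val_rev] at this
    omega
  have hne5 : Fin.rev i0 ≠ Fin.rev i1 := fun h => hne2 (Fin.rev_injective h)
  obtain ⟨i, hi⟩ : ∃ i, L i * D i ≠ 0 := by
    by_contra hcon
    push Not at hcon
    rw [Finset.sum_eq_zero fun i _ => hcon i] at hs
    omega
  have hL : 1 ≤ L i0 := by
    have h1 := abs_le43 ha hr (hle0 i) (hle1 i)
    have h2 := Int.one_le_abs (left_ne_zero_of_mul hi)
    omega
  have hD : 1 ≤ D i0 := by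
    have h1 := abs_le43 hDa hDr (hle0 i) (hle1 i)
    have h2 := Int.one_le_abs (right_ne_zero_of_mul hi)
    omega
  have hlast : ∀ i, L (Fin.rev i) * D (Fin.rev i) = L i * D i := by
    intro i
    rw [hr, hDr]; ring
  have hsub : ∀ S : Finset (Fin m), ∑ i ∈ S, L i * D i ≤ 4 := by
    intro S
    rw [← hs]
    exact Finset.sum_le_sum_of_subset_of_nonneg (Finset.subset_univ S) fun i _ _ => hnn i
  have h2 := hsub {i0, Fin.rev i0}
  rw [Finset.sum_pair hne, hlast] at h2
  have h3 : L i0 * D i0 ≤ 2 := by omega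
  have h4 : L i0 = 1 := by
    have h5 : L i0 ≤ 2 := by nlinarith
    obtain ⟨k, hk⟩ := ho i0
    omega
  rw [h4, one_mul] at h3
  refine ⟨h4, ?_⟩
  have hD1 : 0 ≤ D i1 := nonneg_of_le43 hDa hDr (by omega)
  have hL1 : L i1 = 1 := by
    have h5 := nonneg_of_le43 ha hr (i := i1) (by omega)
    have h6 := ha _ _ (hle0 i1)
    have h7 := hL0 i1
    omega
  have hD01 := hDa _ _ (hle0 i1)
  rcases (by omega : D i0 = 2 ∨ D i0 = 1) with h5 | h5
  · left
    refine ⟨h5, ?_⟩
    have h6 := hsub {i1, i0, Fin.rev i0}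
    rw [Finset.sum_insert (by simp [hne2.symm, hne4.symm]), Finset.sum_pair hne, hlast, h4, h5, hL1] at h6
    omega
  · right
    have hD11 : D i1 = 1 := by
      by_contra hcon
      have h6 : D i1 = 0 := by omega
      have h7 : ∀ j, j ≠ i0 → j ≠ Fin.rev i0 → D j = 0 := by
        intro j hj hj'
        have h8 : i1 ≤ j := by
          rw [Fin.le_def]
          have : (j : ℕ) ≠ 0 := fun h => hj (Fin.ext (by omega))
          omega
        have h9 : j ≤ Fin.rev i1 := by
          rw [Fin.le_def, Fin.val_rev]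
          have : (j : ℕ) ≠ m - 1 := fun h => hj' (Fin.ext (by rw [Fin.val_rev]; omega))
          omega
        have h10 := abs_le43 hDa hDr h8 h9
        rw [h6] at h10
        exact abs_nonpos_iff.1 h10
      have h8 : ∑ i, L i * D i = ∑ i ∈ {i0, Fin.rev i0}, L i * D i := by
        refine (Finset.sum_subset (Finset.subset_univ _) ?_).symm
        intro j _ hj
        simp only [Finset.mem_insert, Finset.mem_singleton, not_or] at hj
        rw [h7 j hj.1 hj.2, mul_zero]
      rw [Finset.sum_pair hne, hlast, h4, h5] at h8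
      omega
    refine ⟨h5, hD11, ?_⟩
    intro j hj hj' hj1 hj1'
    have h6 := hsub {j, i1, Fin.rev i1, i0, Fin.rev i0}
    rw [Finset.sum_insert (by simp [hj, hj', hj1, hj1']), Finset.sum_insert (by simp [hne1, hne2.symm, hne4.symm]),
      Finset.sum_insert (by simp [hne3.symm, hne5.symm]), Finset.sum_pair hne, hlast, hlast, h4, h5, hL1, hD11] at h6
    have h7 := hnn j
    have h8 : L j * D j = 0 := by omega
    exact (mul_eq_zero.1 h8).resolve_left (hL0 j)

end comb

variable {E : Type*} [NormedAddCommGroup E] [InnerProductSpace ℝ E] {Φ X : Finset E} {n s m : ℕ} {l y v : E}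
  {u : Fin m → E}

/-- permutations of the coordinates -/
theorem perm_mem43 (F : FrA Φ m u) (hX : Sat Φ X) (σ : Equiv.Perm (Fin m)) :
    ∀ x ∈ X, ∃ x' ∈ X, ∀ i, (inner ℝ x' (u i) : ℝ) = inner ℝ x (u (σ i)) := by
  refine Equiv.Perm.swap_induction_on σ (fun x hx => ⟨x, hx, fun i => rfl⟩) ?_
  intro f a b hab ih x hx
  have h1 := Sat.refl27 hX (F.mem' hab) (by rw [neg_sub]; exact F.mem' hab.symm) hx
  obtain ⟨x', hx', h2⟩ := ih _ h1
  refine ⟨x', hx', fun i => ?_⟩
  rw [h2, inner_sub_left, inner_smul_left, F.co hab, F.inner_sub, conj_trivial, Equiv.Perm.mul_apply]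
  by_cases h3 : f i = a
  · rw [h3, if_pos rfl, if_neg hab.symm, Equiv.swap_apply_left]
    ring
  · by_cases h4 : f i = b
    · rw [h4, if_pos rfl, if_neg hab, Equiv.swap_apply_right]
      ring
    · rw [if_neg (Ne.symm h3), if_neg (Ne.symm h4), Equiv.swap_apply_of_ne_of_ne h3 h4]
      ring

/-- an ordered frame -/
theorem sorted43 (h : Wd Φ X n l v) (F : FrA Φ m u) : ∃ u' : Fin m → E, FrA Φ m u' ∧
    ∀ i j, i < j → (inner ℝ v (u' j) : ℝ) < inner ℝ v (u' i) := by
  set σ : Equiv.Perm (Fin m) := Tuple.sort fun i => -(inner ℝ v (u i) : ℝ) with hσ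
  have hmono : Monotone ((fun i => -(inner ℝ v (u i) : ℝ)) ∘ σ) := Tuple.monotone_sort _
  refine ⟨fun i => u (σ i), frA_perm43 F σ, ?_⟩
  intro i j hij
  have h1 := hmono hij.le
  simp only [Function.comp_apply] at h1
  rcases lt_or_eq_of_le (show (inner ℝ v (u (σ j)) : ℝ) ≤ inner ℝ v (u (σ i)) by linarith) with h2 | h2
  · exact h2
  · exfalso
    refine h.reg (u (σ i) - u (σ j)) ((F.mem _).2 ⟨σ i, σ j, fun h3 => (ne_of_lt hij) (σ.injective h3), rfl⟩) ?_
    rw [inner_sub_right, h2, sub_self]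

/-- the Casimir constant in coordinates -/
theorem casA43 (F : FrA Φ m u) {x : E} (hx : x ∈ Submodule.span ℝ (Φ : Set E)) :
    cas Φ x = ∑ i, (inner ℝ x (u i) : ℝ) ^ 2 + (1 / 2) * ∑ i, ∑ j, |(inner ℝ x (u i) : ℝ) - inner ℝ x (u j)| := by
  classical
  have h1 : Φ = (Finset.univ : Finset (Fin m)).offDiag.image fun p => u p.1 - u p.2 := by
    ext a
    rw [F.mem]
    simp only [Finset.mem_image, Finset.mem_offDiag, Finset.mem_univ, true_and]
    constructor
    · rintro ⟨i, j, hij, rfl⟩
      exact ⟨(i, j), hij, rfl⟩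
    · rintro ⟨p, hp, rfl⟩
      exact ⟨p.1, p.2, hp, rfl⟩
  have hi1 : Set.InjOn (fun p : Fin m × Fin m => u p.1 - u p.2)
      ((Finset.univ : Finset (Fin m)).offDiag : Set (Fin m × Fin m)) := by
    intro p hp q hq h
    obtain ⟨h2, h3⟩ := frA_inj43 F (Finset.mem_offDiag.1 hp).2.2 (Finset.mem_offDiag.1 hq).2.2 h
    exact Prod.ext h2 h3
  have h2 : ∑ a ∈ Φ, |(inner ℝ x a : ℝ)| = ∑ i, ∑ j, |(inner ℝ x (u i) : ℝ) - inner ℝ x (u j)| := by
    have h3 : ∑ a ∈ Φ, |(inner ℝ x a : ℝ)| =
        ∑ p ∈ (Finset.univ : Finset (Fin m)).offDiag, |(inner ℝ x (u p.1) : ℝ) - inner ℝ x (u p.2)| := by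
      conv_lhs => rw [h1]
      rw [Finset.sum_image hi1]
      refine Finset.sum_congr rfl fun p _ => ?_
      rw [inner_sub_right]
    rw [h3, sum_off (fun i j => |(inner ℝ x (u i) : ℝ) - inner ℝ x (u j)|)]
    simp
  unfold cas
  rw [h2, F.inner_eq hx]
  congr 1
  exact Finset.sum_congr rfl fun i _ => by ring

/-- the norm of the grading element -/
theorem yy43 (F : FrA Φ m u) (hm : 0 < m) {y : E} (hy : y ∈ Submodule.span ℝ (Φ : Set E)) (t : ℝ) (ε : Fin m → ℝ)
    (h : ∀ i, (inner ℝ y (u i) : ℝ) = t + ε i) :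
    m * (inner ℝ y y : ℝ) = m * ∑ i, ε i ^ 2 - (∑ i, ε i) ^ 2 := by
  have h1 := F.sum_ax hm y
  simp only [h, Finset.sum_add_distrib, Finset.sum_const, Finset.card_univ, Fintype.card_fin, nsmul_eq_mul] at h1
  have h2 : (inner ℝ y y : ℝ) = m * t ^ 2 + 2 * t * ∑ i, ε i + ∑ i, ε i ^ 2 := by
    rw [F.inner_eq hy]
    simp only [h]
    have h3 : ∀ i, (t + ε i) * (t + ε i) = t ^ 2 + 2 * t * ε i + ε i ^ 2 := fun i => by ring
    simp only [h3, Finset.sum_add_distrib, Finset.sum_const, Finset.card_univ, Fintype.card_fin, nsmul_eq_mul,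
      ← Finset.mul_sum]
  have h3 : ∑ i, ε i = -(m * t) := by linarith
  rw [h2, h3]
  ring

/-- The numerical alternatives of block A. -/
def Alt43 (n s m : ℕ) : Prop :=
  (∃ k k' : ℕ, 2 ≤ k * k' ∧ s = k * k' ∧ n + 1 = (k + k') ^ 2) ∨
  (∃ i : ℕ, 2 ≤ i ∧ 2 * i ≤ m ∧ s * (m * (m + 1)) = n * (i * (m + 1 - i)) ∧ ∃ x : Fin m → ℤ,
    (∀ j : Fin m, x j = if (j : ℕ) < i then 1 else if m ≤ j + i then -1 else 0) ∧ n * Pa m 0 = Pa m x) ∨
  (∃ k : ℕ, 4 ≤ k ∧ Even k ∧ m = 2 * k ∧ (s * (2 * (2 * k - 1)) = n * (k - 1) ∨ s * (2 * (2 * k - 1)) = n * k) ∧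
    ∃ x : Fin m → ℝ, (∀ j : Fin m, x j = if (j : ℕ) < k then 1 / 2 else -(1 / 2)) ∧ n * PaR m 0 = PaR m x)

/-- the positive roots in an ordered frame -/
theorem mem_Ps43 (F : FrA Φ m u) (hs : ∀ i j, i < j → (inner ℝ v (u j) : ℝ) < inner ℝ v (u i)) {i j : Fin m}
    (hij : i < j) : u i - u j ∈ Ps Φ v := by
  classical
  unfold Ps
  rw [Finset.mem_filter]
  refine ⟨F.mem' (ne_of_lt hij), ?_⟩
  rw [inner_sub_right]
  have := hs _ _ hij
  linarith

theorem anti43 (F : FrA Φ m u) (hs : ∀ i j, i < j → (inner ℝ v (u j) : ℝ) < inner ℝ v (u i)) {z : E}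
    (hz : ∀ a ∈ Ps Φ v, 0 ≤ (inner ℝ z a : ℝ)) {i j : Fin m} (hij : i ≤ j) :
    (inner ℝ z (u j) : ℝ) ≤ inner ℝ z (u i) := by
  rcases eq_or_lt_of_le hij with h | h
  · rw [h]
  · have h1 := hz _ (mem_Ps43 F hs h)
    rw [inner_sub_right] at h1
    linarith

theorem dom43 (F : FrA Φ m u) (hs : ∀ i j, i < j → (inner ℝ v (u j) : ℝ) < inner ℝ v (u i)) {z : E}
    (hz : ∀ i j, i ≤ j → (inner ℝ z (u j) : ℝ) ≤ inner ℝ z (u i)) {a : E} (ha : a ∈ Ps Φ v) :
    0 ≤ (inner ℝ z a : ℝ) := by
  classical
  unfold Ps at ha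
  rw [Finset.mem_filter] at ha
  obtain ⟨i, j, hij, rfl⟩ := (F.mem a).1 ha.1
  rcases lt_or_gt_of_ne hij with h1 | h1
  · rw [inner_sub_right]
    have := hz _ _ h1.le
    linarith
  · have h2 := hs _ _ h1
    have h3 := ha.2
    rw [inner_sub_right] at h3
    linarith

/-- the highest weight is antisymmetric -/
theorem rev43 (F : FrA Φ m u) (hX : Sat Φ X) (hs : ∀ i j, i < j → (inner ℝ v (u j) : ℝ) < inner ℝ v (u i))
    (hl : l ∈ X) (hd : ∀ a ∈ Ps Φ v, 0 ≤ (inner ℝ l a : ℝ)) (ht : Top Φ X l v) (i : Fin m) :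
    (inner ℝ l (u (Fin.rev i)) : ℝ) = -inner ℝ l (u i) := by
  obtain ⟨x, hx, hx1⟩ := perm_mem43 F hX Fin.revPerm l hl
  have hx1' : ∀ i, (inner ℝ x (u i) : ℝ) = inner ℝ l (u (Fin.rev i)) := hx1
  have hxs := Sat.span27 hX hx
  have hls := Sat.span27 hX hl
  have hnx : (inner ℝ x x : ℝ) = inner ℝ l l := by
    rw [F.inner_eq hxs, F.inner_eq hls]
    simp only [hx1']
    exact Equiv.sum_comp Fin.revPerm fun i => (inner ℝ l (u i) : ℝ) * inner ℝ l (u i)
  have h1 := ht (-x) (fun a ha => dom43 F hs (fun i j hij => by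
    rw [inner_neg_left, inner_neg_left, hx1', hx1', neg_le_neg_iff]
    exact anti43 F hs hd (Fin.rev_le_rev.2 hij)) ha) (-x) (hX.neg x hx)
  rw [inner_neg_neg, inner_neg_right, hnx] at h1
  -- `l = -x`
  have h2 : (inner ℝ (l + x) (l + x) : ℝ) ≤ 0 := by
    rw [inner_add_left, inner_add_right, inner_add_right, real_inner_comm l x, hnx]
    linarith
  have h3 : l + x = 0 := inner_self_eq_zero.1 (le_antisymm h2 real_inner_self_nonneg)
  rw [← hx1' i, ← add_eq_zero_iff_eq_neg, ← inner_add_left, add_comm, h3, inner_zero_left]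

/-- the sum over the positive roots -/
theorem sum_Ps43 (h : Wd Φ X n l v) : 2 * ∑ a ∈ Ps Φ v, (inner ℝ l a : ℝ) = ∑ a ∈ Φ, |(inner ℝ l a : ℝ)| := by
  classical
  have h1 : ∑ a ∈ Φ, |(inner ℝ l a : ℝ)| = ∑ a ∈ Ps Φ v, |(inner ℝ l a : ℝ)| +
      ∑ a ∈ Φ.filter (fun a => ¬ 0 < (inner ℝ v a : ℝ)), |(inner ℝ l a : ℝ)| := by
    unfold Ps
    rw [Finset.sum_filter_add_sum_filter_not]
  have h2 : ∑ a ∈ Φ.filter (fun a => ¬ 0 < (inner ℝ v a : ℝ)), |(inner ℝ l a : ℝ)| =
      ∑ a ∈ Ps Φ v, |(inner ℝ l a : ℝ)| := by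
    refine Finset.sum_nbij' (fun a => -a) (fun a => -a) ?_ ?_ (fun a _ => neg_neg a) (fun a _ => neg_neg a)
      (fun a _ => by rw [inner_neg_right, abs_neg])
    · intro a ha
      rw [Finset.mem_filter] at ha
      unfold Ps
      rw [Finset.mem_filter]
      refine ⟨h.rs.neg_mem ha.1, ?_⟩
      rw [inner_neg_right]
      have h3 := h.reg a ha.1
      have h4 := ha.2
      push Not at h4
      have := lt_of_le_of_ne h4 h3
      linarith
    · intro a ha
      unfold Ps at ha
      rw [Finset.mem_filter] at ha ⊢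
      refine ⟨h.rs.neg_mem ha.1, ?_⟩
      rw [inner_neg_right]
      have h4 := ha.2
      push Not
      linarith
  rw [h1, h2, ← two_mul]
  congr 1
  exact Finset.sum_congr rfl fun a ha => (abs_of_nonneg (h.dom a ha)).symm


/-- the Casimir constant, coordinates `0`, `± 1` -/
theorem casZ43 (F : FrA Φ m u) (hm : 0 < m) {x : E} (hx : x ∈ Submodule.span ℝ (Φ : Set E)) {z : Fin m → ℤ}
    (hz : ∀ i, (inner ℝ x (u i) : ℝ) = z i) (h1 : ∀ i, |z i| ≤ 1) {K : ℕ} (hK : ∑ i, |z i| = K) :
    cas Φ x = K * (m + 1) - K ^ 2 / 2 := by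
  have h0 := F.sum_ax hm x
  rw [casA43 F hx]
  simp only [hz] at h0 ⊢
  have hv : ∀ i, (z i : ℝ) = 0 ∨ (z i : ℝ) = 1 ∨ (z i : ℝ) = -1 := by
    intro i
    have h2 := abs_le.1 (h1 i)
    rcases (by omega : z i = 0 ∨ z i = 1 ∨ z i = -1) with h | h | h <;> rw [h] <;> norm_num
  have hK' : ∑ i, |(z i : ℝ)| = K := by
    have : ((∑ i, |z i| : ℤ) : ℝ) = ((K : ℤ) : ℝ) := by rw [hK]
    push_cast at this
    exact this
  have h2 : ∀ i j, |(z i : ℝ) - z j| = |(z i : ℝ)| + |(z j : ℝ)| - |(z i : ℝ)| * |(z j : ℝ)| - z i * z j := by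
    intro i j
    rcases hv i with h | h | h <;> rcases hv j with h' | h' | h' <;> rw [h, h'] <;> norm_num
  have h3 : ∀ i, (z i : ℝ) ^ 2 = |(z i : ℝ)| := by
    intro i
    rcases hv i with h | h | h <;> rw [h] <;> norm_num
  simp only [h2, h3, Finset.sum_sub_distrib, Finset.sum_add_distrib, Finset.sum_const, Finset.card_univ, Fintype.card_fin,
    nsmul_eq_mul, ← Finset.mul_sum, ← Finset.sum_mul, hK', h0]
  ring

/-- the Casimir constant, coordinates `± 1/2` -/
theorem casH43 (F : FrA Φ m u) (hm : 0 < m) {x : E} (hx : x ∈ Submodule.span ℝ (Φ : Set E))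
    (hz : ∀ i, |(inner ℝ x (u i) : ℝ)| = 1 / 2) : cas Φ x = m * (m + 1) / 4 := by
  have h0 := F.sum_ax hm x
  rw [casA43 F hx]
  have hv : ∀ i, (inner ℝ x (u i) : ℝ) = 1 / 2 ∨ (inner ℝ x (u i) : ℝ) = -(1 / 2) := by
    intro i
    rcases abs_cases (inner ℝ x (u i) : ℝ) with h | h
    · left
      rw [← h.1, hz]
    · right
      have := h.1
      rw [hz] at this
      linarith
  have h2 : ∀ i j, |(inner ℝ x (u i) : ℝ) - inner ℝ x (u j)| = 1 / 2 - 2 * (inner ℝ x (u i) * inner ℝ x (u j)) := by
    intro i j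
    rcases hv i with h | h <;> rcases hv j with h' | h' <;> rw [h, h'] <;> norm_num
  have h3 : ∀ i, (inner ℝ x (u i) : ℝ) ^ 2 = 1 / 4 := by
    intro i
    rcases hv i with h | h <;> rw [h] <;> norm_num
  simp only [h2, h3, Finset.sum_sub_distrib, Finset.sum_const, Finset.card_univ, Fintype.card_fin,
    nsmul_eq_mul, ← Finset.mul_sum, ← Finset.sum_mul, h0]
  ring

/-- The norm of `y` if `y` takes two values. -/
theorem yy_two43 (F : FrA Φ m u) (hm : 0 < m) {y : E} (hy : y ∈ Submodule.span ℝ (Φ : Set E)) (t : ℝ) (a : Fin m → ℤ)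
    (h : ∀ i, (inner ℝ y (u i) : ℝ) = t + a i) (h01 : ∀ i, a i = 0 ∨ a i = 1) :
    m * (inner ℝ y y : ℝ) = m * ((∑ i, a i : ℤ) : ℝ) - ((∑ i, a i : ℤ) : ℝ) ^ 2 := by
  rw [yy43 F hm hy t (fun i => (a i : ℝ)) h]
  push_cast
  have h1 : ∀ i, (a i : ℝ) ^ 2 = a i := by
    intro i
    rcases h01 i with h | h <;> rw [h] <;> norm_num
  simp only [h1]

/-- The norm of `y` if all coordinates but the first and the last are equal. -/
theorem yy_mid43 (F : FrA Φ m u) (hm : 0 < m) {y : E} (hy : y ∈ Submodule.span ℝ (Φ : Set E)) (t : ℝ) (a b : ℝ)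
    {i0 i1 : Fin m} (hne : i0 ≠ i1) (h0 : (inner ℝ y (u i0) : ℝ) = t + a) (h1 : (inner ℝ y (u i1) : ℝ) = t + b)
    (h : ∀ i, i ≠ i0 → i ≠ i1 → (inner ℝ y (u i) : ℝ) = t) :
    m * (inner ℝ y y : ℝ) = m * (a ^ 2 + b ^ 2) - (a + b) ^ 2 := by
  classical
  have hs : ∀ g : ℝ → ℝ, g 0 = 0 → ∑ i, g (if i = i0 then a else if i = i1 then b else 0) = g a + g b := by
    intro g hg
    have h2 : ∑ i ∈ ({i0, i1} : Finset (Fin m)), g (if i = i0 then a else if i = i1 then b else 0) = g a + g b := by
      rw [Finset.sum_pair hne, if_pos rfl, if_neg hne.symm, if_pos rfl]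
    rw [← h2]
    symm
    refine Finset.sum_subset (Finset.subset_univ _) ?_
    intro i _ hi
    simp only [Finset.mem_insert, Finset.mem_singleton, not_or] at hi
    rw [if_neg hi.1, if_neg hi.2, hg]
  rw [yy43 F hm hy t (fun i => if i = i0 then a else if i = i1 then b else 0) (by
    intro i
    by_cases h2 : i = i0
    · rw [if_pos h2, h2, h0]
    · by_cases h3 : i = i1
      · rw [if_neg h2, if_pos h3, h3, h1]
      · rw [if_neg h2, if_neg h3, h i h2 h3, add_zero])]
  rw [hs (fun x => x ^ 2) (by norm_num), hs (fun x => x) rfl]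

theorem u_mem43 (F : FrA Φ m u) (hm : 0 < m) (i : Fin m) : u i ∈ Submodule.span ℝ (Φ : Set E) := by
  have h1 : u i = (1 / (m : ℝ)) • ∑ j, (u i - u j) := by
    rw [Finset.sum_sub_distrib, F.sum_u hm, sub_zero, Finset.sum_const, Finset.card_univ, Fintype.card_fin,
      ← Nat.cast_smul_eq_nsmul ℝ, smul_smul, one_div, inv_mul_cancel₀ (by exact_mod_cast hm.ne'), one_smul]
  rw [h1]
  refine Submodule.smul_mem _ _ (Submodule.sum_mem _ fun j _ => ?_)
  by_cases h : i = j
  · rw [h, sub_self]
    exact Submodule.zero_mem _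
  · exact Submodule.subset_span (F.mem' h)

theorem swap43 : ∀ (a : Fin 3) (j : Fin 4), ((Equiv.swap (1 : Fin 4) a.succ j : Fin 4) : ℕ) < 2 ↔
    (j = 0 ∨ j = a.succ) := by decide

theorem other43 : ∀ a b : Fin 3, a ≠ b → ∃ c : Fin 3, c ≠ a ∧ c ≠ b ∧ ∀ i : Fin 3, i = a ∨ i = b ∨ i = c := by decide

/-- `SL_4`: the exterior square is the standard module of `SO_6`. -/
theorem four43 {u : Fin 4 → E} (F : FrA Φ 4 u) (hX : Sat Φ X) (hl : l ∈ X)
    (hmax : ∀ x ∈ X, (inner ℝ x x : ℝ) ≤ inner ℝ l l)
    (hL : ∀ j : Fin 4, (inner ℝ l (u j) : ℝ) = if (j : ℕ) < 2 then 1 / 2 else -(1 / 2)) : TypeD Φ X := by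
  classical
  have hsum : u 0 + u 1 + u 2 + u 3 = 0 := by rw [← F.sum_u (by norm_num), Fin.sum_univ_four]
  have hls := Sat.span27 hX hl
  have hll : (inner ℝ l l : ℝ) = 1 := by
    rw [F.inner_eq hls]
    simp only [hL]
    rw [Fin.sum_univ_four]
    norm_num
  have hcx : ∀ (a : Fin 3) (j : Fin 4), (inner ℝ (u 0 + u a.succ) (u j) : ℝ) =
      if j = 0 ∨ j = a.succ then 1 / 2 else -(1 / 2) := by
    intro a j
    rw [inner_add_left, F.gram, F.gram]
    by_cases h : j = 0
    · rw [if_pos h.symm, if_neg (by rw [h]; exact Fin.succ_ne_zero a), if_pos (Or.inl h)]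
      norm_num
    · by_cases h' : j = a.succ
      · rw [if_neg (Ne.symm h), if_pos h'.symm, if_pos (Or.inr h')]
        norm_num
      · rw [if_neg (Ne.symm h), if_neg (Ne.symm h'), if_neg (by tauto)]
        norm_num
  have hsp : ∀ a : Fin 3, u 0 + u a.succ ∈ Submodule.span ℝ (Φ : Set E) := fun a =>
    Submodule.add_mem _ (u_mem43 F (by norm_num) 0) (u_mem43 F (by norm_num) _)
  have hG : ∀ a b : Fin 3, (inner ℝ (u 0 + u a.succ) (u 0 + u b.succ) : ℝ) = if a = b then 1 else 0 := by
    intro a b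
    rw [inner_add_right, hcx, hcx, if_pos (Or.inl rfl)]
    by_cases h : a = b
    · rw [if_pos (Or.inr (by rw [h])), if_pos h]
      norm_num
    · rw [if_neg (by
        rintro (h' | h')
        · exact Fin.succ_ne_zero b h'
        · exact h (Fin.succ_injective _ h').symm), if_neg h]
      norm_num
  have hmem : ∀ a : Fin 3, u 0 + u a.succ ∈ X := by
    intro a
    obtain ⟨x, hx, hx1⟩ := perm_mem43 F hX (Equiv.swap 1 a.succ) l hl
    have h2 : x = u 0 + u a.succ := by
      refine F.eq_of (Sat.span27 hX hx) (hsp a) fun j => ?_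
      rw [hx1, hL, hcx]
      simp only [swap43]
    rw [← h2]
    exact hx
  -- a weight with the first coordinate `1/2`
  have hpos : ∀ x ∈ X, (∀ i, (inner ℝ x (u i) : ℝ) = 1 / 2 ∨ (inner ℝ x (u i) : ℝ) = -(1 / 2)) →
      (inner ℝ x (u 0) : ℝ) = 1 / 2 → ∃ a : Fin 3, x = u 0 + u a.succ := by
    intro x hx h1 h0
    have h2 := F.sum_ax (by norm_num) x
    rw [Fin.sum_univ_four, h0] at h2
    have key : ∀ a : Fin 3, (∀ j : Fin 4, (inner ℝ x (u j) : ℝ) = if j = 0 ∨ j = a.succ then 1 / 2 else -(1 / 2)) →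
        x = u 0 + u a.succ := fun a ha => F.eq_of (Sat.span27 hX hx) (hsp a) fun j => by rw [ha, hcx]
    rcases h1 1 with h3 | h3 <;> rcases h1 2 with h4 | h4 <;> rcases h1 3 with h5 | h5 <;>
      rw [h3, h4, h5] at h2 <;> norm_num at h2
    · refine ⟨0, key 0 fun j => ?_⟩
      fin_cases j
      · simpa using h0
      · simpa using h3
      · simpa using h4
      · simpa using h5
    · refine ⟨1, key 1 fun j => ?_⟩
      fin_cases j
      · simpa using h0
      · simpa using h3
      · simpa using h4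
      · simpa using h5
    · refine ⟨2, key 2 fun j => ?_⟩
      fin_cases j
      · simpa using h0
      · simpa using h3
      · simpa using h4
      · simpa using h5
  refine ⟨3, fun a => u 0 + u a.succ, orthonormal_iff_ite.2 hG, 1, one_pos, le_refl 3, ?_, ?_⟩
  · intro x
    simp only [one_smul]
    constructor
    · intro hx
      have hint : ∀ i, ∃ k : ℤ, (inner ℝ x (u i) : ℝ) = k + 1 / 2 := by
        intro i
        obtain ⟨k, hk⟩ := F.int_closure (hX.coset x hx l hl) i
        rw [inner_sub_left, hL] at hk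
        split_ifs at hk
        · exact ⟨k, by linarith⟩
        · exact ⟨k - 1, by push_cast; linarith⟩
      have hle := hmax x hx
      rw [hll, F.inner_eq (Sat.span27 hX hx)] at hle
      have hquart : ∀ i, (1 / 4 : ℝ) ≤ inner ℝ x (u i) * inner ℝ x (u i) := by
        intro i
        obtain ⟨k, hk⟩ := hint i
        rw [hk]
        rcases le_or_gt 0 k with h | h
        · have : (0 : ℝ) ≤ k := by exact_mod_cast h
          nlinarith
        · have : (k : ℝ) ≤ -1 := by exact_mod_cast (by omega : k ≤ -1)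
          nlinarith
      have heq : ∀ i, (inner ℝ x (u i) * inner ℝ x (u i) : ℝ) = 1 / 4 := by
        intro i
        refine le_antisymm ?_ (hquart i)
        have h1 : ∑ j ∈ Finset.univ.erase i, (1 / 4 : ℝ) ≤
            ∑ j ∈ Finset.univ.erase i, inner ℝ x (u j) * inner ℝ x (u j) := Finset.sum_le_sum fun j _ => hquart j
        rw [Finset.sum_const, Finset.card_erase_of_mem (Finset.mem_univ i), Finset.card_univ, Fintype.card_fin,
          nsmul_eq_mul, show ((4 - 1 : ℕ) : ℝ) * (1 / 4) = 3 / 4 by norm_num] at h1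
        rw [← Finset.add_sum_erase _ _ (Finset.mem_univ i)] at hle
        linarith
      have hval : ∀ i, (inner ℝ x (u i) : ℝ) = 1 / 2 ∨ (inner ℝ x (u i) : ℝ) = -(1 / 2) := by
        intro i
        have h1 : ((inner ℝ x (u i) : ℝ) - 1 / 2) * (inner ℝ x (u i) + 1 / 2) = 0 := by
          have := heq i
          linarith
        rcases mul_eq_zero.1 h1 with h2 | h2
        · left; linarith
        · right; linarith
      rcases hval 0 with h0 | h0
      · obtain ⟨a, ha⟩ := hpos x hx hval h0
        exact ⟨a, Or.inl ha⟩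
      · obtain ⟨a, ha⟩ := hpos (-x) (hX.neg x hx) (fun i => by
          rw [inner_neg_left]
          rcases hval i with h | h
          · right; rw [h]
          · left; rw [h, neg_neg]) (by rw [inner_neg_left, h0, neg_neg])
        exact ⟨a, Or.inr (by rw [← ha, neg_neg])⟩
    · rintro ⟨a, rfl | rfl⟩
      · exact hmem a
      · exact hX.neg _ (hmem a)
  · intro a b hab
    obtain ⟨c, hca, hcb, hall⟩ := other43 a b hab
    have h1 : u 0 + u a.succ + (u 0 + u b.succ) = u 0 - u c.succ := by
      have h2 : u 0 + u a.succ + u b.succ + u c.succ = 0 := by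
        rw [← F.sum_u (by norm_num), Fin.sum_univ_succ]
        have h3 : ∑ i : Fin 3, u i.succ = u a.succ + u b.succ + u c.succ := by
          have h4 : (Finset.univ : Finset (Fin 3)) = {a, b, c} := by
            ext i
            simp only [Finset.mem_univ, Finset.mem_insert, Finset.mem_singleton, true_iff]
            exact hall i
          rw [h4, Finset.sum_insert (by simp [hab, hca.symm]), Finset.sum_pair hcb.symm]
          abel
        rw [h3]
        abel
      have h3 : u c.succ = -(u 0 + u a.succ + u b.succ) := by rw [← add_eq_zero_iff_eq_neg, add_comm, h2]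
      rw [h3]
      abel
    have h2 : u 0 + u a.succ - (u 0 + u b.succ) = u a.succ - u b.succ := by abel
    simp only [one_smul]
    rw [h1, h2, neg_sub]
    exact ⟨F.mem' (Fin.succ_ne_zero c).symm, F.mem' fun h => hab (Fin.succ_injective _ h),
      F.mem' (Fin.succ_ne_zero c)⟩


/-- **BLOCK A**, the shapes -/
theorem typeA_alt43 (h : Dt Φ X n s l y v) (F0 : FrA Φ m u) (hm : 3 ≤ m) : TypeD Φ X ∨ Alt43 n s m := by
  classical
  obtain ⟨u, F, hs⟩ := sorted43 h.wd F0
  have hI : In Φ X n (8 * s) l y := h.inn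
  have hX := hI.sat
  have hls := Sat.span27 hX hI.l_mem
  have hys := hI.y_mem
  have hm0 : 0 < m := by omega
  have hmr : (3 : ℝ) ≤ m := by exact_mod_cast hm
  have hspos := h.s_pos
  have hsr : (1 : ℝ) ≤ s := by exact_mod_cast hspos
  have hLa : ∀ i j : Fin m, i ≤ j → (inner ℝ l (u j) : ℝ) ≤ inner ℝ l (u i) := fun i j hij => anti43 F hs h.wd.dom hij
  have hLr := rev43 F hX hs hI.l_mem h.wd.dom h.top
  have hYa : ∀ i j : Fin m, i ≤ j → (inner ℝ y (u j) : ℝ) ≤ inner ℝ y (u i) := fun i j hij => anti43 F hs h.ydom hij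
  have hYint : ∀ i j, ∃ k : ℤ, (inner ℝ y (u i) : ℝ) - inner ℝ y (u j) = k := by
    intro i j
    by_cases hij : i = j
    · exact ⟨0, by rw [hij]; simp⟩
    · obtain ⟨k, hk⟩ := hI.lev _ (F.mem' hij)
      rw [real_inner_comm, F.inner_sub'] at hk
      exact ⟨k, hk⟩
  choose D hD using fun i => hYint i (Fin.rev i)
  have hDa : ∀ i j, i ≤ j → D j ≤ D i := by
    intro i j hij
    have h1 := hYa i j hij
    have h2 := hYa _ _ (Fin.rev_le_rev.2 hij)
    have h3 : (D j : ℝ) ≤ D i := by rw [← hD, ← hD]; linarith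
    exact_mod_cast h3
  have hDr : ∀ i, D (Fin.rev i) = -D i := by
    intro i
    have h1 := hD (Fin.rev i)
    rw [Fin.rev_rev] at h1
    have h2 : (D (Fin.rev i) : ℝ) = ((-D i : ℤ) : ℝ) := by
      push_cast
      rw [← h1, ← hD i]
      ring
    exact_mod_cast h2
  have hLD : ∑ i, (inner ℝ l (u i) : ℝ) * D i = 2 := by
    have h1 : ∑ i, (inner ℝ l (u i) : ℝ) * inner ℝ y (u (Fin.rev i)) = -(inner ℝ l y : ℝ) := by
      rw [F.inner_eq hls, ← Equiv.sum_comp Fin.revPerm (fun i => (inner ℝ l (u i) : ℝ) * inner ℝ y (u (Fin.rev i))),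
        ← Finset.sum_neg_distrib]
      refine Finset.sum_congr rfl fun i _ => ?_
      rw [Fin.revPerm_apply, Fin.rev_rev, hLr]
      ring
    have h2 : ∑ i, (inner ℝ l (u i) : ℝ) * D i = inner ℝ l y - ∑ i, (inner ℝ l (u i) : ℝ) * inner ℝ y (u (Fin.rev i)) := by
      rw [F.inner_eq hls, ← Finset.sum_sub_distrib]
      refine Finset.sum_congr rfl fun i _ => ?_
      rw [← hD i]
      ring
    rw [h2, h1, h.ly]
    norm_num
  -- the trace identity
  have hidt := hI.idt
  rw [F.finrank (by omega), F.card] at hidt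
  have hm1 : ((m - 1 : ℕ) : ℝ) = m - 1 := by
    rw [Nat.cast_sub (by omega)]; norm_num
  rw [hm1] at hidt
  push_cast at hidt
  have hid : (n : ℝ) * cas Φ l * (m * inner ℝ y y) = 2 * s * (m * ((m - 1) * (m + 1))) := by
    linear_combination (m : ℝ) / 4 * hidt
  let i0 : Fin m := ⟨0, hm0⟩
  have hle0 : ∀ j : Fin m, i0 ≤ j := fun j => by rw [Fin.le_def]; exact Nat.zero_le _
  have hle1 : ∀ j : Fin m, j ≤ Fin.rev i0 := fun j => by
    rw [Fin.le_def, Fin.val_rev]
    have : (i0 : ℕ) = 0 := rfl
    omega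
  have hne0 : i0 ≠ Fin.rev i0 := by
    intro h
    have := congrArg Fin.val h
    rw [Fin.val_rev] at this
    have : (i0 : ℕ) = 0 := rfl
    omega
  -- the coordinates between the second and the last but one are equal
  have hmid : ∀ i1 : Fin m, (i1 : ℕ) = 1 → D i1 = 0 → ∀ j, j ≠ i0 → j ≠ Fin.rev i0 →
      (inner ℝ y (u j) : ℝ) = inner ℝ y (u i1) := by
    intro i1 hi1 hd j hj hj'
    have h8 : i1 ≤ j := by
      rw [Fin.le_def]
      have : (j : ℕ) ≠ 0 := fun h => hj (Fin.ext h)
      omega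
    have h9 : j ≤ Fin.rev i1 := by
      rw [Fin.le_def, Fin.val_rev]
      have : (j : ℕ) ≠ m - 1 := fun h => hj' (Fin.ext (by rw [Fin.val_rev]; exact h))
      omega
    have h1 := hYa _ _ h8
    have h2 := hYa _ _ h9
    have h3 := hD i1
    rw [hd, Int.cast_zero] at h3
    linarith
  rcases F.int_or hX (by omega) hI.l_mem with ⟨z, hz⟩ | ⟨z, hz⟩
  · -- integral coordinates
    right
    have hza : ∀ i j, i ≤ j → z j ≤ z i := by
      intro i j hij
      have h1 := hLa i j hij
      rw [hz, hz] at h1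
      exact_mod_cast h1
    have hzr : ∀ i, z (Fin.rev i) = -z i := by
      intro i
      have h1 := hLr i
      rw [hz, hz] at h1
      exact_mod_cast h1
    have hzD : ∑ i, z i * D i = 2 := by
      simp only [hz] at hLD
      exact_mod_cast hLD
    obtain ⟨hz0, hD0, hzero⟩ := core_int43 hm hza hzr hDa hDr hzD (i0 := i0) rfl
    have habs : ∀ j, |z j| ≤ 1 := by
      intro j
      have := abs_le43 hza hzr (hle0 j) (hle1 j)
      rw [hz0] at this
      exact this
    set S : Finset (Fin m) := Finset.univ.filter fun j => z j = 1 with hS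
    have hlow := lower_card43 S (by
      intro i j hij hj
      rw [hS, Finset.mem_filter] at hj ⊢
      refine ⟨Finset.mem_univ i, ?_⟩
      have h1 := hza i j hij
      have h2 := (abs_le.1 (habs i)).2
      omega)
    have hmemS : ∀ j, z j = 1 ↔ (j : ℕ) < S.card := by
      intro j
      rw [← hlow j, hS, Finset.mem_filter]
      simp
    have hS1 : 1 ≤ S.card := by
      have := (hmemS i0).1 hz0
      omega
    have hSm : 2 * S.card ≤ m := by
      by_contra hcon
      push Not at hcon
      have hSle : S.card ≤ m := by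
        have := Finset.card_le_univ S
        rwa [Fintype.card_fin] at this
      let j : Fin m := ⟨S.card - 1, by omega⟩
      have hj : (j : ℕ) = S.card - 1 := rfl
      have h1 := (hmemS j).2 (by omega)
      have h2 := (hmemS (Fin.rev j)).2 (by rw [Fin.val_rev]; omega)
      rw [hzr] at h2
      omega
    have hzval : ∀ j : Fin m, z j = if (j : ℕ) < S.card then 1 else if m ≤ j + S.card then -1 else 0 := by
      intro j
      by_cases h1 : (j : ℕ) < S.card
      · rw [if_pos h1]
        exact (hmemS j).2 h1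
      · rw [if_neg h1]
        by_cases h2 : m ≤ j + S.card
        · rw [if_pos h2]
          have h3 := (hmemS (Fin.rev j)).2 (by rw [Fin.val_rev]; omega)
          rw [hzr] at h3
          omega
        · rw [if_neg h2]
          have h3 : z j ≠ 1 := fun h => h1 ((hmemS j).1 h)
          have h4 : z (Fin.rev j) ≠ 1 := fun h => by
            have := (hmemS (Fin.rev j)).1 h
            rw [Fin.val_rev] at this
            omega
          rw [hzr] at h4
          have := abs_le.1 (habs j)
          omega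
    have hcount : ∑ j, (if z j = 1 then (1 : ℤ) else 0) = S.card := by
      rw [hS, Finset.card_filter]
      push_cast
      rfl
    have hK : ∑ j, |z j| = ((2 * S.card : ℕ) : ℤ) := by
      have h1 : ∀ j, |z j| = (if z j = 1 then (1 : ℤ) else 0) + (if z (Fin.rev j) = 1 then (1 : ℤ) else 0) := by
        intro j
        rw [hzr]
        have h2 := abs_le.1 (habs j)
        rcases (by omega : z j = 0 ∨ z j = 1 ∨ z j = -1) with h | h | h <;> rw [h] <;> norm_num
      have h2 : ∑ j, (if z (Fin.rev j) = 1 then (1 : ℤ) else 0) = S.card := by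
        rw [← hcount]
        exact Equiv.sum_comp Fin.revPerm fun j => if z j = 1 then (1 : ℤ) else 0
      rw [Finset.sum_congr rfl fun j _ => h1 j, Finset.sum_add_distrib, hcount, h2]
      push_cast
      ring
    have hcas := casZ43 F hm0 hls hz habs hK
    rcases Nat.lt_or_ge S.card 2 with hS2 | hS2
    · -- the adjoint module
      left
      have hSc : S.card = 1 := by omega
      have hl : l = u i0 - u (Fin.rev i0) := by
        refine F.eq_of hls (Submodule.subset_span (F.mem' hne0)) fun j => ?_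
        rw [hz, F.inner_sub, hzval j, hSc]
        by_cases h1 : j = i0
        · have h2 : (j : ℕ) < 1 := by rw [h1]; exact one_pos
          have h3 : ¬ Fin.rev i0 = j := fun h => hne0 (h1.symm.trans h.symm)
          rw [if_pos h2, if_pos h1.symm, if_neg h3]
          norm_num
        · have h2 : (j : ℕ) ≠ 0 := fun h => h1 (Fin.ext h)
          have h2' : ¬ (j : ℕ) < 1 := by omega
          by_cases h3 : j = Fin.rev i0
          · have h4 : m ≤ (j : ℕ) + 1 := by
              rw [h3, Fin.val_rev]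
              have : (i0 : ℕ) = 0 := rfl
              omega
            rw [if_neg h2', if_pos h4, if_neg (Ne.symm h1), if_pos h3.symm]
            norm_num
          · have h4 : ¬ m ≤ (j : ℕ) + 1 := by
              intro h4
              apply h3
              apply Fin.ext
              rw [Fin.val_rev]
              have : (i0 : ℕ) = 0 := rfl
              have := j.2
              omega
            rw [if_neg h2', if_neg h4, if_neg (Ne.symm h1), if_neg (Ne.symm h3)]
            norm_num
      have hn := h.adj (by rw [hl]; exact F.mem' hne0) (by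
        intro a ha
        obtain ⟨i, j, hij, rfl⟩ := (F.mem a).1 ha
        rw [hl, F.norm hij, F.norm hne0])
      have hnr : (n : ℝ) = (m - 1) * (m + 1) := by
        have h1 : (n : ℝ) = ((m - 1 : ℕ) : ℝ) + Φ.card := by
          rw [hn, F.finrank (by omega)]
          push_cast
          rfl
        rw [h1, hm1, F.card]
        ring
      choose a ha using fun j => hYint j (Fin.rev i0)
      have ha0 : a i0 = 1 := by
        have h1 := ha i0
        rw [hD i0, hD0] at h1
        exact_mod_cast h1.symm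
      have hal : a (Fin.rev i0) = 0 := by
        have h1 := ha (Fin.rev i0)
        rw [sub_self] at h1
        exact_mod_cast h1.symm
      have ha01 : ∀ j, a j = 0 ∨ a j = 1 := by
        intro j
        have h1 : (0 : ℝ) ≤ a j := by
          rw [← ha j]
          have := hYa _ _ (hle1 j)
          linarith
        have h2 : (a j : ℝ) ≤ a i0 := by
          rw [← ha j, ← ha i0]
          have := hYa _ _ (hle0 j)
          linarith
        rw [ha0] at h2
        have h3 : 0 ≤ a j := by exact_mod_cast h1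
        have h4 : a j ≤ 1 := by exact_mod_cast h2
        omega
      have hyy := yy_two43 F hm0 hys (inner ℝ y (u (Fin.rev i0))) a (fun j => by rw [← ha j]; ring) ha01
      have hnn : ∀ j, 0 ≤ a j := fun j => by rcases ha01 j with h | h <;> rw [h]; norm_num
      have hk1 : 1 ≤ ∑ j, a j := by
        rw [← ha0]
        exact Finset.single_le_sum (fun j _ => hnn j) (Finset.mem_univ i0)
      have hk2 : ∑ j, a j + 1 ≤ m := by
        have h1 : ∑ j ∈ Finset.univ.erase (Fin.rev i0), a j ≤ ∑ j ∈ Finset.univ.erase (Fin.rev i0), (1 : ℤ) :=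
          Finset.sum_le_sum fun j _ => by rcases ha01 j with h | h <;> rw [h]; norm_num
        rw [Finset.sum_const, Finset.card_erase_of_mem (Finset.mem_univ _), Finset.card_univ, Fintype.card_fin,
          nsmul_eq_mul, mul_one] at h1
        rw [← Finset.add_sum_erase _ _ (Finset.mem_univ (Fin.rev i0)), hal]
        push_cast [Nat.cast_sub (show 1 ≤ m by omega)] at h1
        linarith
      obtain ⟨k, hk⟩ : ∃ k : ℕ, ∑ j, a j = k := ⟨(∑ j, a j).toNat, by rw [Int.toNat_of_nonneg (by omega)]⟩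
      rw [hk] at hyy hk1 hk2
      have hkm : k + 1 ≤ m := by exact_mod_cast hk2
      have hk1' : 1 ≤ k := by exact_mod_cast hk1
      obtain ⟨k', rfl⟩ : ∃ k', m = k + k' := ⟨m - k, by omega⟩
      have hk'1 : 1 ≤ k' := by omega
      rw [hSc] at hcas
      rw [hcas, hyy, hnr] at hid
      refine ⟨k, k', ?_, ?_, ?_⟩
      · nlinarith
      · have h1 : (0 : ℝ) < ((k + k' : ℕ) : ℝ) - 1 := by linarith
        have h2 : (0 : ℝ) < ((k + k' : ℕ) : ℝ) + 1 := by linarith
        have h3 : (0 : ℝ) < ((k + k' : ℕ) : ℝ) := by linarith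
        have h4 : (0 : ℝ) < 2 * (((k + k' : ℕ) : ℝ) * ((((k + k' : ℕ) : ℝ) - 1) * (((k + k' : ℕ) : ℝ) + 1))) := by
          positivity
        have h5 : (s : ℝ) = ((k * k' : ℕ) : ℝ) := by
          refine mul_left_cancel₀ h4.ne' ?_
          push_cast at hid ⊢
          linear_combination -hid
        exact_mod_cast h5
      · have h5 : ((n + 1 : ℕ) : ℝ) = (((k + k') ^ 2 : ℕ) : ℝ) := by
          push_cast at hnr ⊢
          rw [hnr]
          ring
        exact_mod_cast h5
    · -- `Λ^i` and its dual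
      right; left
      have hm4 : 4 ≤ m := by omega
      let i1 : Fin m := ⟨1, by omega⟩
      have hi1 : (i1 : ℕ) = 1 := rfl
      have hne1 : i1 ≠ i0 := by
        intro h
        have := congrArg Fin.val h
        have : (i0 : ℕ) = 0 := rfl
        omega
      have hne1' : i1 ≠ Fin.rev i0 := by
        intro h
        have := congrArg Fin.val h
        rw [Fin.val_rev] at this
        have : (i0 : ℕ) = 0 := rfl
        omega
      have hD1 : D i1 = 0 := by
        have h1 := hzero i1 hne1 hne1'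
        rw [(hmemS i1).2 (by omega), one_mul] at h1
        exact h1
      have hY := hmid i1 rfl hD1
      obtain ⟨a, ha⟩ := hYint i0 i1
      obtain ⟨b, hb⟩ := hYint (Fin.rev i0) i1
      have hab : a - b = 1 := by
        have h1 : ((a - b : ℤ) : ℝ) = D i0 := by
          push_cast
          rw [← ha, ← hb, ← hD i0]
          ring
        rw [hD0] at h1
        exact_mod_cast h1
      have ha0 : 0 ≤ a := by
        have h1 : (0 : ℝ) ≤ a := by
          rw [← ha]
          have := hYa _ _ (hle0 i1)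
          linarith
        exact_mod_cast h1
      have hb0 : b ≤ 0 := by
        have h1 : (b : ℝ) ≤ 0 := by
          rw [← hb]
          have := hYa _ _ (hle1 i1)
          linarith
        exact_mod_cast h1
      have hyy := yy_mid43 F hm0 hys (inner ℝ y (u i1)) a b hne0 (by rw [← ha]; ring) (by rw [← hb]; ring) hY
      have hyy' : (m : ℝ) * inner ℝ y y = m - 1 := by
        rw [hyy]
        rcases (by omega : (a = 1 ∧ b = 0) ∨ (a = 0 ∧ b = -1)) with ⟨h1, h2⟩ | ⟨h1, h2⟩ <;> rw [h1, h2] <;>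
          push_cast <;> ring
      rw [hcas, hyy'] at hid
      refine ⟨S.card, hS2, hSm, ?_, z, hzval, ?_⟩
      · have h1 : (0 : ℝ) < (m : ℝ) - 1 := by linarith
        have h2 : ((m + 1 - S.card : ℕ) : ℝ) = m + 1 - S.card := by
          rw [Nat.cast_sub (by omega)]
          push_cast
          ring
        have h3 : ((s * (m * (m + 1)) : ℕ) : ℝ) = ((n * (S.card * (m + 1 - S.card)) : ℕ) : ℝ) := by
          refine mul_left_cancel₀ (mul_pos two_pos h1).ne' ?_
          push_cast [h2] at hid ⊢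
          linear_combination -hid
        exact_mod_cast h3
      · exact (dim_frA_sorted43 h.wd F hz hs).2.1
  · -- half odd coordinates
    set w : Fin m → ℤ := fun i => 2 * z i + 1 with hw
    have hLw : ∀ i, (inner ℝ l (u i) : ℝ) = w i / 2 := by
      intro i
      rw [hz, hw]
      push_cast
      ring
    have hwo : ∀ i, Odd (w i) := fun i => ⟨z i, rfl⟩
    have hwa : ∀ i j, i ≤ j → w j ≤ w i := by
      intro i j hij
      have h1 := hLa i j hij
      rw [hLw, hLw] at h1
      have h2 : (w j : ℝ) ≤ w i := by linarith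
      exact_mod_cast h2
    have hwr : ∀ i, w (Fin.rev i) = -w i := by
      intro i
      have h1 := hLr i
      rw [hLw, hLw] at h1
      have h2 : (w (Fin.rev i) : ℝ) = ((-w i : ℤ) : ℝ) := by
        push_cast
        linarith
      exact_mod_cast h2
    have hwD : ∑ i, w i * D i = 4 := by
      have h1 : ((∑ i, w i * D i : ℤ) : ℝ) = ((4 : ℤ) : ℝ) := by
        have h2 : ((∑ i, w i * D i : ℤ) : ℝ) = 2 * ∑ i, (inner ℝ l (u i) : ℝ) * D i := by
          push_cast
          rw [Finset.mul_sum]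
          refine Finset.sum_congr rfl fun i _ => ?_
          rw [hLw]
          ring
        rw [h2, hLD]
        norm_num
      exact_mod_cast h1
    -- the rank is odd
    obtain ⟨k, hk⟩ : ∃ k, m = 2 * k := by
      rcases Nat.even_or_odd' m with ⟨k, hk | hk⟩
      · exact ⟨k, hk⟩
      · exfalso
        let c : Fin m := ⟨k, by omega⟩
        have hc : Fin.rev c = c := by
          apply Fin.ext
          rw [Fin.val_rev]
          have : (c : ℕ) = k := rfl
          omega
        have h1 := hwr c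
        rw [hc] at h1
        obtain ⟨q, hq⟩ := hwo c
        omega
    have hk2 : 2 ≤ k := by omega
    have hm4 : 4 ≤ m := by omega
    let i1 : Fin m := ⟨1, by omega⟩
    have hi1 : (i1 : ℕ) = 1 := rfl
    have hi0 : (i0 : ℕ) = 0 := rfl
    obtain ⟨hw0, hcase⟩ := core_odd43 hm4 hwo hwa hwr hDa hDr hwD (i0 := i0) (i1 := i1) rfl rfl
    have hwval : ∀ j : Fin m, w j = if (j : ℕ) < k then 1 else -1 := by
      intro j
      have h1 := abs_le43 hwa hwr (hle0 j) (hle1 j)
      rw [hw0] at h1
      have h2 := abs_le.1 h1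
      obtain ⟨q, hq⟩ := hwo j
      by_cases h3 : (j : ℕ) < k
      · rw [if_pos h3]
        have := nonneg_of_le43 hwa hwr (i := j) (by omega)
        omega
      · rw [if_neg h3]
        have := nonpos_of_ge43 hwa hwr (i := j) (by omega)
        omega
    have hLval : ∀ j : Fin m, (inner ℝ l (u j) : ℝ) = if (j : ℕ) < k then 1 / 2 else -(1 / 2) := by
      intro j
      rw [hLw, hwval]
      by_cases h3 : (j : ℕ) < k
      · rw [if_pos h3, if_pos h3]
        norm_num
      · rw [if_neg h3, if_neg h3]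
        norm_num
    have hLabs : ∀ j : Fin m, |(inner ℝ l (u j) : ℝ)| = 1 / 2 := by
      intro j
      rw [hLval]
      split_ifs
      · rw [abs_of_pos (by norm_num)]
      · rw [abs_neg, abs_of_pos (by norm_num)]
    have hcas := casH43 F hm0 hls hLabs
    -- parity
    have hpar : Even k := by
      obtain ⟨q, hq⟩ := h.par
      have h1 : ∑ a ∈ Ps Φ v, co a l = ∑ a ∈ Ps Φ v, (inner ℝ l a : ℝ) := by
        refine Finset.sum_congr rfl fun a ha => ?_
        unfold Ps at ha
        rw [Finset.mem_filter] at ha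
        obtain ⟨i, j, hij, rfl⟩ := (F.mem a).1 ha.1
        rw [F.co hij, F.inner_sub']
      rw [h1] at hq
      have h2 := sum_Ps43 h.wd
      have h3 := hcas
      unfold cas at h3
      have h4 : (inner ℝ l l : ℝ) = m / 4 := by
        rw [F.inner_eq hls]
        have h5 : ∀ i, (inner ℝ l (u i) : ℝ) * inner ℝ l (u i) = 1 / 4 := by
          intro i
          have := hLabs i
          rw [← abs_mul_abs_self, this]
          norm_num
        simp only [h5, Finset.sum_const, Finset.card_univ, Fintype.card_fin, nsmul_eq_mul]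
        ring
      rw [h4, ← h2, hq] at h3
      have h5 : (m : ℝ) = 2 * k := by exact_mod_cast hk
      have h6 : ((k ^ 2 : ℕ) : ℤ) = 2 * q := by
        have h7 : (((k ^ 2 : ℕ) : ℤ) : ℝ) = ((2 * q : ℤ) : ℝ) := by
          push_cast
          rw [h5] at h3
          linarith
        exact_mod_cast h7
      have h7 : Even (k ^ 2) := by
        have : Even ((k ^ 2 : ℕ) : ℤ) := ⟨q, by rw [h6]; ring⟩
        exact_mod_cast this
      exact (Nat.even_pow.1 h7).1
    rcases Nat.lt_or_ge k 4 with hk4 | hk4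
    · left
      have hk22 : k = 2 := by
        obtain ⟨q, hq⟩ := hpar
        omega
      subst hk22
      have hm44 : m = 4 := by omega
      subst hm44
      exact four43 F hX hI.l_mem hI.l_max hLval
    right
    refine Or.inr (Or.inr ⟨k, hk4, hpar, hk, ?_, fun j => inner ℝ l (u j), hLval, ?_⟩)
    swap
    · exact (dim_frAR_sorted43 h.wd F (fun _ => rfl) hs).2.1
    have hmk : (m : ℝ) = 2 * k := by exact_mod_cast hk
    have hkr : (4 : ℝ) ≤ k := by exact_mod_cast hk4
    rw [hcas] at hid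
    have hid2 : (n : ℝ) * (m * inner ℝ y y) = 8 * s * (m - 1) := by
      have h1 : (0 : ℝ) < m * (m + 1) := by positivity
      refine mul_left_cancel₀ h1.ne' ?_
      linear_combination 4 * hid
    have hk1 : ((k - 1 : ℕ) : ℝ) = k - 1 := by
      rw [Nat.cast_sub (by omega)]; norm_num
    have h2k1 : ((2 * k - 1 : ℕ) : ℝ) = 2 * k - 1 := by
      rw [Nat.cast_sub (by omega)]; push_cast; ring
    rcases hcase with ⟨hD0, hD1⟩ | ⟨hD0, hD1, hDrest⟩
    · -- `y = ω_1 + ω_(m-1)`
      have hY := hmid i1 rfl hD1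
      obtain ⟨a, ha⟩ := hYint i0 i1
      obtain ⟨b, hb⟩ := hYint (Fin.rev i0) i1
      have hab : a - b = 2 := by
        have h1 : ((a - b : ℤ) : ℝ) = D i0 := by
          push_cast
          rw [← ha, ← hb, ← hD i0]
          ring
        rw [hD0] at h1
        exact_mod_cast h1
      have ha0 : 0 ≤ a := by
        have h1 : (0 : ℝ) ≤ a := by
          rw [← ha]
          have := hYa _ _ (hle0 i1)
          linarith
        exact_mod_cast h1
      have hb0 : b ≤ 0 := by
        have h1 : (b : ℝ) ≤ 0 := by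
          rw [← hb]
          have := hYa _ _ (hle1 i1)
          linarith
        exact_mod_cast h1
      have hyy := yy_mid43 F hm0 hys (inner ℝ y (u i1)) a b hne0 (by rw [← ha]; ring) (by rw [← hb]; ring) hY
      have hcase2 : (m : ℝ) * inner ℝ y y = 4 * (m - 1) ∨ (m : ℝ) * inner ℝ y y = 2 * m := by
        rcases (by omega : (a = 2 ∧ b = 0) ∨ (a = 1 ∧ b = -1) ∨ (a = 0 ∧ b = -2)) with ⟨h1, h2⟩ | ⟨h1, h2⟩ | ⟨h1, h2⟩
        · left
          rw [hyy, h1, h2]
          push_cast
          ring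
        · right
          rw [hyy, h1, h2]
          push_cast
          ring
        · left
          rw [hyy, h1, h2]
          push_cast
          ring
      rcases hcase2 with h1 | h1
      · exfalso
        rw [h1] at hid2
        have h2 : (0 : ℝ) < m - 1 := by linarith
        have h3 : (n : ℝ) = ((2 * s : ℕ) : ℝ) := by
          refine mul_left_cancel₀ (mul_pos four_pos h2).ne' ?_
          push_cast
          linear_combination hid2
        have h4 : n = 2 * s := by exact_mod_cast h3
        have := h.h_pos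
        omega
      · right
        rw [h1, hmk] at hid2
        have h3 : ((s * (2 * (2 * k - 1)) : ℕ) : ℝ) = ((n * k : ℕ) : ℝ) := by
          push_cast [h2k1]
          linear_combination -hid2 / 4
        exact_mod_cast h3
    · -- `y = ω_2`
      left
      choose a ha using fun j => hYint j (Fin.rev i0)
      have ha0 : a i0 = 1 := by
        have h1 := ha i0
        rw [hD i0, hD0] at h1
        exact_mod_cast h1.symm
      have hal : a (Fin.rev i0) = 0 := by
        have h1 := ha (Fin.rev i0)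
        rw [sub_self] at h1
        exact_mod_cast h1.symm
      have ha01 : ∀ j, a j = 0 ∨ a j = 1 := by
        intro j
        have h1 : (0 : ℝ) ≤ a j := by
          rw [← ha j]
          have := hYa _ _ (hle1 j)
          linarith
        have h2 : (a j : ℝ) ≤ a i0 := by
          rw [← ha j, ← ha i0]
          have := hYa _ _ (hle0 j)
          linarith
        rw [ha0] at h2
        have h3 : 0 ≤ a j := by exact_mod_cast h1
        have h4 : a j ≤ 1 := by exact_mod_cast h2
        omega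
      have hdiff : ∀ j, a j - a (Fin.rev j) = D j := by
        intro j
        have h1 : ((a j - a (Fin.rev j) : ℤ) : ℝ) = D j := by
          push_cast
          rw [← ha, ← ha, ← hD j]
          ring
        exact_mod_cast h1
      have ha1 : a i1 = 1 ∧ a (Fin.rev i1) = 0 := by
        have h1 := hdiff i1
        rw [hD1] at h1
        rcases ha01 i1 with h2 | h2 <;> rcases ha01 (Fin.rev i1) with h3 | h3 <;> omega
      have hyy := yy_two43 F hm0 hys (inner ℝ y (u (Fin.rev i0))) a (fun j => by rw [← ha j]; ring) ha01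
      -- the middle values
      let i2 : Fin m := ⟨2, by omega⟩
      have hi2 : (i2 : ℕ) = 2 := rfl
      have hmid2 : ∀ j, j ≠ i0 → j ≠ Fin.rev i0 → j ≠ i1 → j ≠ Fin.rev i1 → a j = a i2 := by
        intro j hj hj' hj1 hj1'
        have h1 : (j : ℕ) ≠ 0 := fun h => hj (Fin.ext h)
        have h2 : (j : ℕ) ≠ m - 1 := fun h => hj' (Fin.ext (by rw [Fin.val_rev]; exact h))
        have h3 : (j : ℕ) ≠ 1 := fun h => hj1 (Fin.ext h)
        have h4 : (j : ℕ) ≠ m - 2 := fun h => hj1' (Fin.ext (by rw [Fin.val_rev]; exact h))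
        have h5 : i2 ≤ j := by
          rw [Fin.le_def]
          omega
        have h6 : j ≤ Fin.rev i2 := by
          rw [Fin.le_def, Fin.val_rev]
          omega
        have h7 := hYa _ _ h5
        have h8 := hYa _ _ h6
        have h9 : D i2 = 0 := hDrest i2 (fun h => by have := congrArg Fin.val h; omega)
          (fun h => by have := congrArg Fin.val h; rw [Fin.val_rev] at this; omega)
          (fun h => by have := congrArg Fin.val h; omega)
          (fun h => by have := congrArg Fin.val h; rw [Fin.val_rev] at this; omega)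
        have h10 := hD i2
        rw [h9, Int.cast_zero] at h10
        have h11 : (a j : ℝ) = a i2 := by
          rw [← ha, ← ha]
          linarith
        exact_mod_cast h11
      have hne2 : i0 ≠ i1 := fun h => by have := congrArg Fin.val h; omega
      have hne3 : i0 ≠ Fin.rev i1 := fun h => by
        have := congrArg Fin.val h
        rw [Fin.val_rev] at this
        omega
      have hne4 : Fin.rev i0 ≠ i1 := fun h => by
        have := congrArg Fin.val h
        rw [Fin.val_rev] at this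
        omega
      have hne5 : Fin.rev i0 ≠ Fin.rev i1 := fun h => hne2 (Fin.rev_injective h)
      have hne6 : i1 ≠ Fin.rev i1 := fun h => by
        have := congrArg Fin.val h
        rw [Fin.val_rev] at this
        omega
      have hsum : ∑ j, a j = 2 + ((m : ℤ) - 4) * a i2 := by
        set T : Finset (Fin m) := {i0, Fin.rev i0, i1, Fin.rev i1} with hT
        have h1 : ∑ j ∈ T, a j = 2 := by
          rw [hT, Finset.sum_insert (by simp [hne0, hne2, hne3]), Finset.sum_insert (by simp [hne4, hne5]),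
            Finset.sum_pair hne6, ha0, hal, ha1.1, ha1.2]
          norm_num
        have hTc : T.card = 4 := by
          rw [hT, Finset.card_insert_of_notMem (by simp [hne0, hne2, hne3]),
            Finset.card_insert_of_notMem (by simp [hne4, hne5]), Finset.card_pair hne6]
        have h2 : ∑ j ∈ Tᶜ, a j = ((m : ℤ) - 4) * a i2 := by
          rw [Finset.sum_congr rfl (g := fun _ => a i2), Finset.sum_const, Finset.card_compl, Fintype.card_fin, hTc,
            nsmul_eq_mul, Nat.cast_sub hm4]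
          · norm_num
          · intro j hj
            rw [Finset.mem_compl, hT] at hj
            simp only [Finset.mem_insert, Finset.mem_singleton, not_or] at hj
            exact hmid2 j hj.1 hj.2.1 hj.2.2.1 hj.2.2.2
        rw [← Finset.sum_add_sum_compl T, h1, h2]
      have hyy' : (m : ℝ) * inner ℝ y y = 2 * (m - 2) := by
        rw [hyy, hsum]
        rcases ha01 i2 with h1 | h1 <;> rw [h1] <;> push_cast <;> ring
      rw [hyy', hmk] at hid2
      have h3 : ((s * (2 * (2 * k - 1)) : ℕ) : ℝ) = ((n * (k - 1) : ℕ) : ℝ) := by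
        push_cast [h2k1, hk1]
        linear_combination -hid2 / 4
      exact_mod_cast h3

end LT
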